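import Pool.Agent.NH14.PC.Nrm

set_option autoImplicit false

/-!
# Project PC: assembly
-/

namespace Pool.Agent.NH14.PC

open scoped ENNReal
open Finset

namespace Asm

variable {G : Type} [Group G]

theorem cv_mono {F F' : G → ℝ≥0∞} (H : ∀ x, F x ≤ F' x) (h : G → ℝ≥0∞) (x : G) :
    cv F h x ≤ cv F' h x :=
  ENNReal.tsum_le_tsum fun _ => mul_le_mul_left (H _) _

theorem Ok_mono {s : ℝ} (hs : 0 < s) {F F' : G → ℝ≥0∞} (H : ∀ x, F x ≤ F' x) (h : Ok s F') :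
    Ok s F := by
  obtain ⟨c, hc, h1⟩ := h
  exact ⟨c, hc, fun h h2 h3 => (nrm_mono hs (cv_mono H h)).trans (h1 h h2 h3)⟩

theorem cv_add (F F' h : G → ℝ≥0∞) (x : G) :
    cv (fun y => F y + F' y) h x = cv F h x + cv F' h x := by
  unfold cv
  simp only [add_mul]
  exact ENNReal.tsum_add

theorem Ok_add {s : ℝ} (hs : 1 ≤ s) {F F' : G → ℝ≥0∞} (h : Ok s F) (h' : Ok s F') :
    Ok s (fun y => F y + F' y) := by
  obtain ⟨c, hc, h1⟩ := h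
  obtain ⟨c', hc', h1'⟩ := h'
  refine ⟨c + c', ENNReal.add_ne_top.2 ⟨hc, hc'⟩, fun h h2 h3 => ?_⟩
  have e : cv (fun y => F y + F' y) h = fun x => cv F h x + cv F' h x := funext (cv_add F F' h)
  rw [e, add_mul]
  exact (nrm_add hs _ _).trans (add_le_add (h1 h h2 h3) (h1' h h2 h3))

theorem Ok_add_iff {s : ℝ} (hs : 1 ≤ s) {F F' : G → ℝ≥0∞} :
    Ok s (fun y => F y + F' y) ↔ Ok s F ∧ Ok s F' := by
  have hs0 : 0 < s := by linarith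
  constructor
  · intro h
    exact ⟨Ok_mono hs0 (fun x => le_self_add) h, Ok_mono hs0 (fun x => le_add_self) h⟩
  · rintro ⟨h, h'⟩
    exact Ok_add hs h h'

theorem Ok_zero {s : ℝ} (hs : 0 < s) : Ok s (fun _ : G => (0 : ℝ≥0∞)) := by
  refine ⟨0, ENNReal.zero_ne_top, fun h _ _ => ?_⟩
  have e : cv (fun _ : G => (0 : ℝ≥0∞)) h = fun _ => 0 := by
    funext x
    unfold cv
    simp
  rw [e, nrm_zero hs, zero_mul]

theorem nrm_le_of_FB {s : ℝ} (hs : 0 < s) {F : G → ℝ≥0∞} {c : ℝ≥0∞} (h : FB s F c) :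
    nrm s F ≤ c := by
  classical
  have h2 := h (fun y => if y = 1 then 1 else 0)
    ((Set.finite_singleton (1 : G)).subset fun y hy => by
      by_contra h
      exact hy (if_neg h)) (fun y => by
        split_ifs
        · exact ENNReal.one_ne_top
        · exact ENNReal.zero_ne_top)
  have e1 : cv F (fun y => if y = 1 then 1 else 0) = F := by
    funext z
    unfold cv
    rw [tsum_eq_single (1 : G)]
    · simp
    · intro k hk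
      simp only [if_neg hk, mul_zero]
  have e2 : nrm s (fun y : G => if y = 1 then (1 : ℝ≥0∞) else 0) = 1 := by
    unfold nrm
    rw [tsum_eq_single (1 : G)]
    · simp
    · intro k hk
      simp only [if_neg hk, ENNReal.zero_rpow_of_pos hs]
  rwa [e1, e2, mul_one] at h2

/-- the values of a bounded convolver are finite -/
theorem fin_of_Ok {s : ℝ} (hs : 0 < s) {F : G → ℝ≥0∞} (h : Ok s F) (x : G) : F x ≠ ⊤ := by
  obtain ⟨c, hc, h1⟩ := h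
  have h2 := nrm_le_of_FB hs h1
  rw [nrm_le_iff hs] at h2
  intro h3
  have h4 : F x ^ s ≤ c ^ s := (ENNReal.le_tsum x).trans h2
  rw [ENNReal.rpow_le_rpow_iff hs, h3, top_le_iff] at h4
  exact hc h4

/-- the series of blocks -/
noncomputable def ser (A B : G) (c : ℕ → ℝ≥0∞) (x : G) : ℝ≥0∞ :=
  ∑' n, c n * blk A B (2 ^ n) (2 ^ (n ^ 2)) x

theorem pow_one (s : ℝ) (n : ℕ) :
    (((2 ^ n : ℕ) : ℝ≥0∞)) ^ (1 / s) = (2 : ℝ≥0∞) ^ ((n : ℝ) / s) := by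
  rw [Nat.cast_pow, Nat.cast_ofNat, ← ENNReal.rpow_natCast, ← ENNReal.rpow_mul]
  congr 1
  ring

theorem pow_two' {s : ℝ} (hs : 0 < s) (n : ℕ) :
    ((2 ^ n : ℕ) : ℝ≥0∞) * (((2 ^ (n ^ 2) : ℕ) : ℝ≥0∞)⁻¹) ^ (1 / s) ≤ (2 : ℝ≥0∞) ^ s := by
  rw [ENNReal.inv_rpow, pow_one, ← ENNReal.rpow_neg, Nat.cast_pow, Nat.cast_ofNat,
    ← ENNReal.rpow_natCast, ← ENNReal.rpow_add _ _ (by norm_num) (by norm_num)]
  apply ENNReal.rpow_le_rpow_of_exponent_le (by norm_num)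
  push_cast
  have h1 : (n : ℝ) ≤ s + (n : ℝ) ^ 2 / s := by
    rw [← sub_nonneg]
    have h2 : s + (n : ℝ) ^ 2 / s - n = (s ^ 2 + (n : ℝ) ^ 2 - n * s) / s := by
      field_simp
    rw [h2]
    apply div_nonneg _ hs.le
    nlinarith [sq_nonneg (s - n), mul_nonneg hs.le (Nat.cast_nonneg (α := ℝ) n)]
  linarith

theorem cv_ser (A B : G) (c : ℕ → ℝ≥0∞) (h : G → ℝ≥0∞) (x : G) :
    cv (ser A B c) h x = ∑' n, c n * cv (blk A B (2 ^ n) (2 ^ (n ^ 2))) h x := by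
  unfold cv ser
  simp only [← ENNReal.tsum_mul_right]
  rw [ENNReal.tsum_comm]
  refine tsum_congr fun n => ?_
  rw [← ENNReal.tsum_mul_left]
  refine tsum_congr fun k => ?_
  rw [mul_assoc]

theorem ser_up (hUP : S_UP) {A B : G} {Q : Set G} (hQ : PP A B Q) {c : ℕ → ℝ≥0∞} {s : ℝ}
    (hs : 1 ≤ s) (hc : ∑' n, c n * (2 : ℝ≥0∞) ^ ((n : ℝ) / s) ≠ ⊤) : Ok s (ser A B c) := by
  have hs0 : 0 < s := by linarith
  refine ⟨(1 + (2 : ℝ≥0∞) ^ s) * ∑' n, c n * (2 : ℝ≥0∞) ^ ((n : ℝ) / s),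
    ENNReal.mul_ne_top (ENNReal.add_ne_top.2 ⟨ENNReal.one_ne_top,
      ENNReal.rpow_ne_top_of_nonneg hs0.le (by norm_num)⟩) hc, fun h _ _ => ?_⟩
  have e : cv (ser A B c) h = fun x => ∑' n, c n * cv (blk A B (2 ^ n) (2 ^ (n ^ 2))) h x :=
    funext (cv_ser A B c h)
  rw [e]
  refine (nrm_tsum hs _).trans ?_
  rw [← ENNReal.tsum_mul_left, ← ENNReal.tsum_mul_right]
  refine ENNReal.tsum_le_tsum fun n => ?_
  rw [nrm_mul hs0]
  have h1 := hUP G A B Q hQ s hs (2 ^ n) (2 ^ (n ^ 2)) Nat.one_le_two_pow h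
  have h2 : ((2 ^ n : ℕ) : ℝ≥0∞) ^ (1 / s) +
      ((2 ^ n : ℕ) : ℝ≥0∞) * (((2 ^ (n ^ 2) : ℕ) : ℝ≥0∞)⁻¹) ^ (1 / s) ≤
      (1 + (2 : ℝ≥0∞) ^ s) * (2 : ℝ≥0∞) ^ ((n : ℝ) / s) := by
    rw [pow_one, add_mul, one_mul]
    refine add_le_add le_rfl ((pow_two' hs0 n).trans ?_)
    have h3 : (1 : ℝ≥0∞) ≤ (2 : ℝ≥0∞) ^ ((n : ℝ) / s) := by
      rw [← ENNReal.rpow_zero (x := 2)]
      exact ENNReal.rpow_le_rpow_of_exponent_le (by norm_num) (by positivity)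
    exact le_mul_of_one_le_right zero_le h3
  calc c n * nrm s (cv (blk A B (2 ^ n) (2 ^ (n ^ 2))) h)
      ≤ c n * (((1 + (2 : ℝ≥0∞) ^ s) * (2 : ℝ≥0∞) ^ ((n : ℝ) / s)) * nrm s h) := by
        gcongr
        exact h1.trans (mul_le_mul_left h2 _)
    _ = (1 + (2 : ℝ≥0∞) ^ s) * (c n * (2 : ℝ≥0∞) ^ ((n : ℝ) / s)) * nrm s h := by ring

theorem ser_lo (hLO : S_LO) {A B : G} {Q : Set G} (hQ : PP A B Q) {c : ℕ → ℝ≥0∞}
    (hc : ∀ n, c n ≠ ⊤) {s : ℝ} (hs : 0 < s) (h : Ok s (ser A B c)) :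
    ∃ K : ℝ≥0∞, K ≠ ⊤ ∧ ∀ n : ℕ, c n * (2 : ℝ≥0∞) ^ ((n : ℝ) / s) ≤ K := by
  obtain ⟨C, hC, h1⟩ := h
  refine ⟨(2 : ℝ≥0∞) ^ (1 / s) * C,
    ENNReal.mul_ne_top (ENNReal.rpow_ne_top_of_nonneg (by positivity) (by norm_num)) hC,
    fun n => ?_⟩
  by_cases h0 : c n = 0
  · rw [h0, zero_mul]
    exact zero_le
  have h2 : FB s (blk A B (2 ^ n) (2 ^ (n ^ 2))) ((c n)⁻¹ * C) := by
    intro h h3 h4
    have h5 : c n * nrm s (cv (blk A B (2 ^ n) (2 ^ (n ^ 2))) h) ≤ C * nrm s h := by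
      rw [← nrm_mul hs]
      refine (nrm_mono hs fun x => ?_).trans (h1 h h3 h4)
      rw [cv_ser]
      exact ENNReal.le_tsum n
    calc nrm s (cv (blk A B (2 ^ n) (2 ^ (n ^ 2))) h)
        = (c n)⁻¹ * (c n * nrm s (cv (blk A B (2 ^ n) (2 ^ (n ^ 2))) h)) := by
          rw [← mul_assoc, ENNReal.inv_mul_cancel h0 (hc n), one_mul]
      _ ≤ (c n)⁻¹ * (C * nrm s h) := by gcongr
      _ = (c n)⁻¹ * C * nrm s h := by rw [mul_assoc]
  have h3 := hLO G A B Q hQ s hs (2 ^ n) (2 ^ (n ^ 2)) Nat.one_le_two_pow _ h2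
  have h4 : (2 : ℝ≥0∞) ^ ((n : ℝ) / s) ≤ (2 : ℝ≥0∞) ^ (1 / s) * ((c n)⁻¹ * C) := by
    rw [← pow_one]
    refine (ENNReal.rpow_le_rpow h3 (by positivity : (0:ℝ) ≤ 1 / s)).trans ?_
    rw [ENNReal.mul_rpow_of_nonneg _ _ (by positivity), ← ENNReal.rpow_mul,
      mul_one_div_cancel hs.ne', ENNReal.rpow_one]
  calc c n * (2 : ℝ≥0∞) ^ ((n : ℝ) / s) ≤ c n * ((2 : ℝ≥0∞) ^ (1 / s) * ((c n)⁻¹ * C)) := by
        gcongr
    _ = (c n * (c n)⁻¹) * ((2 : ℝ≥0∞) ^ (1 / s) * C) := by ring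
    _ = (2 : ℝ≥0∞) ^ (1 / s) * C := by
        rw [ENNReal.mul_inv_cancel h0 (hc n), one_mul]

/-- rays to the right -/
theorem ray (hUP : S_UP) (hLO : S_LO) (hWT : S_WT) {A B : G} {Q : Set G} (hQ : PP A B Q)
    {U : Set ℝ}
    (hU : U = Set.Ioi 1 ∨ (∃ r, 1 < r ∧ U = Set.Ici r) ∨ ∃ r, 1 < r ∧ U = Set.Ioi r) :
    ∃ F : G → ℝ≥0∞, (∀ x, F x ≠ ⊤) ∧ ∀ s, 1 < s → (Ok s F ↔ s ∈ U) := by
  rcases hU with hU | ⟨r, hr, hU⟩ | ⟨r, hr, hU⟩
  · refine ⟨fun _ => 0, fun _ => ENNReal.zero_ne_top, fun s hs => ?_⟩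
    rw [hU]
    exact ⟨fun _ => hs, fun _ => Ok_zero (by linarith)⟩
  · obtain ⟨⟨c, hc, h1, h2⟩, -⟩ := hWT r hr
    have h3 : ∀ s, 1 < s → (Ok s (ser A B c) ↔ s ∈ U) := by
      intro s hs
      rw [hU]
      constructor
      · intro h
        by_contra h4
        rw [Set.mem_Ici, not_le] at h4
        obtain ⟨K, hK, h5⟩ := ser_lo hLO hQ hc (by linarith) h
        obtain ⟨n, hn⟩ := h2 s hs h4 K hK
        exact absurd (h5 n) (not_le.2 hn)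
      · intro h
        exact ser_up hUP hQ hs.le (h1 s h)
    exact ⟨ser A B c, fin_of_Ok (by linarith : (0:ℝ) < r)
      ((h3 r hr).2 (by rw [hU]; exact Set.self_mem_Ici)), h3⟩
  · obtain ⟨-, c, hc, h1, h2⟩ := hWT r hr
    have h3 : ∀ s, 1 < s → (Ok s (ser A B c) ↔ s ∈ U) := by
      intro s hs
      rw [hU]
      constructor
      · intro h
        by_contra h4
        rw [Set.mem_Ioi, not_lt] at h4
        obtain ⟨K, hK, h5⟩ := ser_lo hLO hQ hc (by linarith) h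
        obtain ⟨n, hn⟩ := h2 s hs h4 K hK
        exact absurd (h5 n) (not_le.2 hn)
      · intro h
        exact ser_up hUP hQ hs.le (h1 s h)
    exact ⟨ser A B c, fin_of_Ok (by linarith : (0:ℝ) < r + 1)
      ((h3 (r + 1) (by linarith)).2 (by rw [hU]; exact Set.mem_Ioi.2 (by linarith))), h3⟩

theorem conj_gt {s : ℝ} (hs : 1 < s) : 1 < s / (s - 1) := by
  rw [lt_div_iff₀ (by linarith)]
  linarith

theorem conj_conj {s : ℝ} (hs : 1 < s) : s / (s - 1) / (s / (s - 1) - 1) = s := by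
  have h1 : s - 1 ≠ 0 := by linarith
  field_simp
  ring

theorem DU_iff (hDU : S_DU) {F : G → ℝ≥0∞} (hF : ∀ x, F x ≠ ⊤) {s : ℝ} (hs : 1 < s) :
    Ok s (fun x => F x⁻¹) ↔ Ok (s / (s - 1)) F := by
  constructor
  · intro h
    have h1 := hDU G (fun x => F x⁻¹) (fun x => hF _) (s / (s - 1)) (conj_gt hs)
    rw [conj_conj hs] at h1
    simpa only [inv_inv] using h1 h
  · exact hDU G F hF s hs

theorem conj_le {s r : ℝ} (hs : 1 < s) (hr : 1 < r) :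
    r / (r - 1) ≤ s / (s - 1) ↔ s ≤ r := by
  rw [div_le_div_iff₀ (by linarith) (by linarith)]
  constructor <;> intro h <;> nlinarith

theorem conj_lt {s r : ℝ} (hs : 1 < s) (hr : 1 < r) :
    r / (r - 1) < s / (s - 1) ↔ s < r := by
  rw [div_lt_div_iff₀ (by linarith) (by linarith)]
  constructor <;> intro h <;> nlinarith

/-- rays to the left -/
theorem ray' (hUP : S_UP) (hLO : S_LO) (hWT : S_WT) (hDU : S_DU) {A B : G} {Q : Set G}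
    (hQ : PP A B Q) {D : Set ℝ}
    (hD : D = Set.Ioi 1 ∨ (∃ r, 1 < r ∧ D = Set.Ioc 1 r) ∨ ∃ r, 1 < r ∧ D = Set.Ioo 1 r) :
    ∃ F : G → ℝ≥0∞, (∀ x, F x ≠ ⊤) ∧ ∀ s, 1 < s → (Ok s F ↔ s ∈ D) := by
  rcases hD with hD | ⟨r, hr, hD⟩ | ⟨r, hr, hD⟩
  · exact ray hUP hLO hWT hQ (Or.inl hD)
  · obtain ⟨F, hF, h⟩ := ray hUP hLO hWT hQ (U := Set.Ici (r / (r - 1)))
      (Or.inr (Or.inl ⟨_, conj_gt hr, rfl⟩))
    refine ⟨fun x => F x⁻¹, fun x => hF _, fun s hs => ?_⟩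
    rw [DU_iff hDU hF hs, h _ (conj_gt hs), Set.mem_Ici, conj_le hs hr, hD]
    exact ⟨fun h => ⟨hs, h⟩, fun h => h.2⟩
  · obtain ⟨F, hF, h⟩ := ray hUP hLO hWT hQ (U := Set.Ioi (r / (r - 1)))
      (Or.inr (Or.inr ⟨_, conj_gt hr, rfl⟩))
    refine ⟨fun x => F x⁻¹, fun x => hF _, fun s hs => ?_⟩
    rw [DU_iff hDU hF hs, h _ (conj_gt hs), Set.mem_Ioi, conj_lt hs hr, hD]
    exact ⟨fun h => ⟨hs, h⟩, fun h => h.2⟩

/-- the constant function one convolves no `ℓ^s` of an infinite group -/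
theorem not_Ok_one [Infinite G] {s : ℝ} (hs : 0 < s) : ¬ Ok s (fun _ : G => (1 : ℝ≥0∞)) := by
  rintro ⟨c, hc, h1⟩
  have h2 := nrm_le_of_FB hs h1
  rw [nrm_le_iff hs] at h2
  simp only [ENNReal.one_rpow] at h2
  rw [ENNReal.tsum_const_eq_top_of_ne_zero one_ne_zero, top_le_iff] at h2
  exact ENNReal.rpow_ne_top_of_nonneg hs.le hc h2

/-- every interval of exponents -/
theorem interval (hPP : S_PPG) (hUP : S_UP) (hLO : S_LO) (hWT : S_WT) (hDU : S_DU) (hINT : S_INT)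
    (φ : FreeGroup (Fin 2) →* G) (hφ : Function.Injective φ) (J : Set ℝ) (hJ : J ⊆ Set.Ioi 1)
    (hJ' : J.OrdConnected) :
    ∃ F : G → ℝ≥0∞, (∀ x, F x ≠ ⊤) ∧ ∀ s, 1 < s → (Ok s F ↔ s ∈ J) := by
  have hinf : Infinite G := Infinite.of_injective φ hφ
  rcases J.eq_empty_or_nonempty with h0 | h0
  · refine ⟨fun _ => 1, fun _ => ENNReal.one_ne_top, fun s hs => ?_⟩
    rw [h0]
    exact ⟨fun h => absurd h (not_Ok_one (by linarith)), fun h => absurd h (Set.notMem_empty s)⟩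
  · obtain ⟨A, B, Q, hQ⟩ := hPP G φ hφ
    obtain ⟨U, D, h1, h2, h3⟩ := hINT J hJ hJ' h0
    obtain ⟨F, hF, h4⟩ := ray hUP hLO hWT hQ h2
    obtain ⟨F', hF', h5⟩ := ray' hUP hLO hWT hDU hQ h3
    refine ⟨fun x => F x + F' x, fun x => ENNReal.add_ne_top.2 ⟨hF x, hF' x⟩, fun s hs => ?_⟩
    rw [Ok_add_iff hs.le, h4 s hs, h5 s hs, h1]
    rfl

end Asm

end Pool.Agent.NH14.PC
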