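import Pool.Agent.NH14.PC.Nrm

set_option autoImplicit false

/-!
# PC-5 CX: nonnegative versus complex convolvers
-/

namespace Pool.Agent.NH14.PC

open scoped ENNReal

namespace Cx92

/-- `∑' k, F (g k⁻¹) h k` as a finite sum -/
lemma cv_eq {G : Type} [Group G] (F h : G → ℝ≥0∞) (g : G) (S : Finset G)
    (hS : ∀ k, k ∉ S → h k = 0) : cv F h g = ∑ k ∈ S, F (g * k⁻¹) * h k := by
  unfold cv
  refine tsum_eq_sum fun k hk => ?_
  rw [hS k hk, mul_zero]

lemma tsum_pow {G : Type} {s : ℝ} (hs : 0 < s) (h : G → ℝ≥0∞) (S : Finset G)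
    (hS : ∀ k, k ∉ S → h k = 0) : ∑' k, h k ^ s = ∑ k ∈ S, h k ^ s := by
  refine tsum_eq_sum fun k hk => ?_
  rw [hS k hk, ENNReal.zero_rpow_of_pos hs]

lemma mul_pow' {s : ℝ} (hs : 0 < s) {X : Type} (c : ℝ≥0∞) (h : X → ℝ≥0∞) :
    (c * nrm s h) ^ s = c ^ s * ∑' k, h k ^ s := by
  rw [ENNReal.mul_rpow_of_nonneg _ _ hs.le, nrm_rpow hs]

end Cx92

open Cx92 in
theorem t_CX : S_CX := by
  intro G _ F hF s hs
  have hs0 : 0 < s := by linarith
  constructor
  · rintro ⟨C, hC⟩
    refine ⟨(ENNReal.ofReal C) ^ (1 / s), ENNReal.rpow_ne_top_of_nonneg (by positivity)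
      ENNReal.ofReal_ne_top, fun h hfin hh => ?_⟩
    have hfin' : (Function.support fun k => (((h k).toReal : ℝ) : ℂ)).Finite := by
      refine hfin.subset fun k hk => ?_
      rw [Function.mem_support] at hk ⊢
      intro h0
      apply hk
      rw [h0]
      simp
    set ξ : G →₀ ℂ := Finsupp.ofSupportFinite (fun k => (((h k).toReal : ℝ) : ℂ)) hfin' with hξ
    have hξk : ∀ k, ξ k = (((h k).toReal : ℝ) : ℂ) := fun k => rfl
    have hS : ∀ k, k ∉ ξ.support → h k = 0 := by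
      intro k hk
      rw [Finsupp.notMem_support_iff, hξk] at hk
      have h1 : (h k).toReal = 0 := by exact_mod_cast hk
      rcases (ENNReal.toReal_eq_zero_iff _).1 h1 with h2 | h2
      · exact h2
      · exact absurd h2 (hh k)
    obtain ⟨hsum, hle⟩ := hC ξ
    have hcv : ∀ g, cv F h g =
        ENNReal.ofReal ‖∑ k ∈ ξ.support, (((F (g * k⁻¹)).toReal : ℝ) : ℂ) * ξ k‖ := by
      intro g
      have h1 : ∑ k ∈ ξ.support, (((F (g * k⁻¹)).toReal : ℝ) : ℂ) * ξ k =
          ((∑ k ∈ ξ.support, (F (g * k⁻¹)).toReal * (h k).toReal : ℝ) : ℂ) := by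
        push_cast
        exact Finset.sum_congr rfl fun k _ => by rw [hξk]
      have h2 : 0 ≤ ∑ k ∈ ξ.support, (F (g * k⁻¹)).toReal * (h k).toReal :=
        Finset.sum_nonneg fun k _ => mul_nonneg ENNReal.toReal_nonneg ENNReal.toReal_nonneg
      rw [h1, Complex.norm_real, Real.norm_of_nonneg h2, cv_eq F h g _ hS,
        ENNReal.ofReal_sum_of_nonneg fun k _ =>
          mul_nonneg ENNReal.toReal_nonneg ENNReal.toReal_nonneg]
      refine Finset.sum_congr rfl fun k _ => ?_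
      rw [ENNReal.ofReal_mul ENNReal.toReal_nonneg, ENNReal.ofReal_toReal (hF _),
        ENNReal.ofReal_toReal (hh k)]
    rw [nrm_le_iff hs0, mul_pow' hs0, ← ENNReal.rpow_mul, one_div_mul_cancel hs0.ne',
      ENNReal.rpow_one]
    have h3 : ∑' g, cv F h g ^ s = ENNReal.ofReal
        (∑' g : G, ‖∑ k ∈ ξ.support, (((F (g * k⁻¹)).toReal : ℝ) : ℂ) * ξ k‖ ^ s) := by
      rw [ENNReal.ofReal_tsum_of_nonneg (fun g => by positivity) hsum]
      refine tsum_congr fun g => ?_
      rw [hcv, ENNReal.ofReal_rpow_of_nonneg (norm_nonneg _) hs0.le]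
    rw [h3]
    refine (ENNReal.ofReal_le_ofReal hle).trans ?_
    rw [ENNReal.ofReal_mul' (Finset.sum_nonneg fun k _ => by positivity)]
    refine mul_le_mul_right (le_of_eq ?_) _
    rw [tsum_pow hs0 h _ hS, ENNReal.ofReal_sum_of_nonneg fun k _ => by positivity]
    refine Finset.sum_congr rfl fun k _ => ?_
    rw [hξk, Complex.norm_real, Real.norm_of_nonneg ENNReal.toReal_nonneg,
      ← ENNReal.ofReal_rpow_of_nonneg ENNReal.toReal_nonneg hs0.le, ENNReal.ofReal_toReal (hh k)]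
  · rintro ⟨c, hc, hFB⟩
    refine ⟨(c ^ s).toReal, fun ξ => ?_⟩
    set h : G → ℝ≥0∞ := fun k => ENNReal.ofReal ‖ξ k‖ with hh
    have hS : ∀ k, k ∉ ξ.support → h k = 0 := by
      intro k hk
      rw [Finsupp.notMem_support_iff] at hk
      rw [hh]
      simp [hk]
    have hfin : h.support.Finite := by
      refine ξ.support.finite_toSet.subset fun k hk => ?_
      by_contra hk'
      exact hk (hS k (by simpa using hk'))
    have hB := hFB h hfin fun k => ENNReal.ofReal_ne_top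
    rw [nrm_le_iff hs0, mul_pow' hs0, tsum_pow hs0 h _ hS] at hB
    set a : G → ℝ := fun g => ‖∑ k ∈ ξ.support, (((F (g * k⁻¹)).toReal : ℝ) : ℂ) * ξ k‖ ^ s
      with ha
    have ha0 : ∀ g, 0 ≤ a g := fun g => by rw [ha]; positivity
    have hag : ∀ g, ENNReal.ofReal (a g) ≤ cv F h g ^ s := by
      intro g
      rw [ha]
      simp only
      rw [← ENNReal.ofReal_rpow_of_nonneg (norm_nonneg _) hs0.le]
      refine ENNReal.rpow_le_rpow ?_ hs0.le
      rw [cv_eq F h g _ hS]
      refine (ENNReal.ofReal_le_ofReal (norm_sum_le _ _)).trans ?_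
      rw [ENNReal.ofReal_sum_of_nonneg fun k _ => norm_nonneg _]
      refine le_of_eq (Finset.sum_congr rfl fun k _ => ?_)
      rw [norm_mul, ENNReal.ofReal_mul (norm_nonneg _), Complex.norm_real,
        Real.norm_of_nonneg ENNReal.toReal_nonneg, ENNReal.ofReal_toReal (hF _)]
    have hT : ∑' g, ENNReal.ofReal (a g) ≤ c ^ s * ENNReal.ofReal (∑ k ∈ ξ.support, ‖ξ k‖ ^ s) := by
      refine (ENNReal.tsum_le_tsum hag).trans (hB.trans (le_of_eq ?_))
      rw [ENNReal.ofReal_sum_of_nonneg fun k _ => by positivity]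
      congr 1
      refine Finset.sum_congr rfl fun k _ => ?_
      rw [hh]
      simp only
      rw [ENNReal.ofReal_rpow_of_nonneg (norm_nonneg _) hs0.le]
    have htop : c ^ s * ENNReal.ofReal (∑ k ∈ ξ.support, ‖ξ k‖ ^ s) ≠ ⊤ :=
      ENNReal.mul_ne_top (ENNReal.rpow_ne_top_of_nonneg hs0.le hc) ENNReal.ofReal_ne_top
    have hT' : ∑' g, ENNReal.ofReal (a g) ≠ ⊤ := ne_top_of_le_ne_top htop hT
    have hfun : (fun g => (ENNReal.ofReal (a g)).toReal) = a :=
      funext fun g => ENNReal.toReal_ofReal (ha0 g)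
    refine ⟨?_, ?_⟩
    · have := ENNReal.summable_toReal hT'
      rwa [hfun] at this
    · have h1 : ∑' g, a g = (∑' g, ENNReal.ofReal (a g)).toReal := by
        rw [ENNReal.tsum_toReal_eq fun g => ENNReal.ofReal_ne_top, hfun]
      rw [h1]
      refine (ENNReal.toReal_mono htop hT).trans (le_of_eq ?_)
      rw [ENNReal.toReal_mul, ENNReal.toReal_ofReal (Finset.sum_nonneg fun k _ => by positivity)]

end Pool.Agent.NH14.PC
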