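import Pool.Agent.NH14.PC.Nrm

set_option autoImplicit false

/-!
# Duality for nonnegative convolvers
-/

namespace Pool.Agent.NH14.PC

open scoped ENNReal

theorem t_DU : S_DU := by
  intro G _ F hF s hs ⟨c, hc, hFB⟩
  refine ⟨c, hc, ?_⟩
  intro h hfin hne
  have hs0 : 0 < s := by linarith
  have hs1 : s - 1 ≠ 0 := by linarith
  set t := s / (s - 1) with ht
  have hst : s.HolderConjugate t := Real.HolderConjugate.conjExponent hs
  have ht0 : 0 < t := hst.symm.pos
  set u := cv (fun x => F x⁻¹) h with hu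
  have hufin : ∀ x, u x ≠ ⊤ := by
    intro x
    show (∑' k, F (x * k⁻¹)⁻¹ * h k) ≠ ⊤
    rw [tsum_eq_sum (s := hfin.toFinset)]
    · exact ENNReal.sum_ne_top.2 fun k _ => ENNReal.mul_ne_top (hF _) (hne _)
    · intro k hk
      have : h k = 0 := by simpa using hk
      rw [this, mul_zero]
  rw [nrm_le_iff hs0, ENNReal.tsum_eq_iSup_sum]
  refine iSup_le fun T => ?_
  set S := ∑ x ∈ T, u x ^ s with hS
  classical
  let v : G → ℝ≥0∞ := fun x => if x ∈ T then u x ^ (s - 1) else 0
  have hSt : S ≠ ⊤ := ENNReal.sum_ne_top.2 fun x _ =>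
    ENNReal.rpow_ne_top_of_nonneg hs0.le (hufin x)
  have hv : nrm t v = S ^ (1 / t) := by
    unfold nrm
    congr 1
    rw [tsum_eq_sum (s := T)]
    · apply Finset.sum_congr rfl
      intro x hx
      simp only [v, if_pos hx]
      rw [← ENNReal.rpow_mul]
      congr 1
      rw [ht]; field_simp
    · intro x hx
      simp [v, hx, ENNReal.zero_rpow_of_pos ht0]
  have h1 : S = ∑' x, u x * v x := by
    rw [tsum_eq_sum (s := T)]
    · apply Finset.sum_congr rfl
      intro x hx
      simp only [v, if_pos hx]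
      have e1 : u x * u x ^ (s - 1) = u x ^ (1 : ℝ) * u x ^ (s - 1) := by rw [ENNReal.rpow_one]
      rw [e1, ← ENNReal.rpow_add_of_nonneg _ _ (by norm_num) (by linarith)]
      congr 1
      ring
    · intro x hx
      simp [v, hx]
  have h2 : S = ∑' k, h k * cv F v k := by
    rw [h1]
    have e : ∀ x, u x * v x = ∑' k, F (k * x⁻¹) * h k * v x := by
      intro x
      rw [ENNReal.tsum_mul_right]
      congr 1
      show (∑' k, F (x * k⁻¹)⁻¹ * h k) = _
      apply tsum_congr
      intro k
      rw [mul_inv_rev, inv_inv]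
    simp_rw [e]
    rw [ENNReal.tsum_comm]
    apply tsum_congr
    intro k
    show _ = h k * ∑' x, F (k * x⁻¹) * v x
    rw [← ENNReal.tsum_mul_left]
    apply tsum_congr
    intro x
    ring
  have h3 : S ≤ nrm s h * (c * nrm t v) := by
    rw [h2]
    refine (holder hst h (cv F v)).trans ?_
    gcongr
    apply hFB v
    · apply T.finite_toSet.subset
      intro x hx
      by_contra h'
      apply hx
      have h'' : x ∉ T := h'
      simp [v, h'']
    · intro x
      simp only [v]
      split_ifs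
      · exact ENNReal.rpow_ne_top_of_nonneg (by linarith) (hufin x)
      · simp
  rcases eq_or_ne S 0 with h0 | h0
  · rw [h0]; exact bot_le
  rw [hv] at h3
  have e2 : S = S ^ (1 / s) * S ^ (1 / t) := by
    rw [← ENNReal.rpow_add_of_nonneg _ _ (by positivity) (by positivity)]
    have : 1 / s + 1 / t = 1 := by
      have := hst.inv_add_inv_eq_one
      rw [one_div, one_div]; exact this
    rw [this, ENNReal.rpow_one]
  have h4 : S ^ (1 / s) * S ^ (1 / t) ≤ (c * nrm s h) * S ^ (1 / t) := by
    rw [← e2]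
    refine h3.trans (le_of_eq ?_)
    ring
  have p1 : S ^ (1 / t) ≠ 0 := by
    intro h'
    rcases ENNReal.rpow_eq_zero_iff.1 h' with h' | h'
    · exact h0 h'.1
    · exact hSt h'.1
  have p2 : S ^ (1 / t) ≠ ⊤ := ENNReal.rpow_ne_top_of_nonneg (by positivity) hSt
  have h5 : S ^ (1 / s) ≤ c * nrm s h := (ENNReal.mul_le_mul_iff_left p1 p2).1 h4
  have h6 := ENNReal.rpow_le_rpow h5 hs0.le
  rwa [← ENNReal.rpow_mul, one_div_mul_cancel hs0.ne', ENNReal.rpow_one] at h6

end Pool.Agent.NH14.PC
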