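import Pool.Agent.NH14.PC.Stm

set_option autoImplicit false

/-!
# `ℓ^s` norms of nonnegative functions on a discrete set
-/

namespace Pool.Agent.NH14.PC

open scoped ENNReal
open MeasureTheory Filter Topology

variable {X : Type*}

theorem nrm_rpow {s : ℝ} (hs : 0 < s) (h : X → ℝ≥0∞) : nrm s h ^ s = ∑' x, h x ^ s := by
  unfold nrm
  rw [← ENNReal.rpow_mul, one_div_mul_cancel hs.ne', ENNReal.rpow_one]

theorem nrm_le_iff {s : ℝ} (hs : 0 < s) (h : X → ℝ≥0∞) (c : ℝ≥0∞) :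
    nrm s h ≤ c ↔ ∑' x, h x ^ s ≤ c ^ s := by
  rw [← nrm_rpow hs, ENNReal.rpow_le_rpow_iff hs]

theorem nrm_mono {s : ℝ} (hs : 0 < s) {h h' : X → ℝ≥0∞} (H : ∀ x, h x ≤ h' x) :
    nrm s h ≤ nrm s h' := by
  unfold nrm
  apply ENNReal.rpow_le_rpow _ (by positivity)
  exact ENNReal.tsum_le_tsum fun x => ENNReal.rpow_le_rpow (H x) hs.le

theorem nrm_zero {s : ℝ} (hs : 0 < s) : nrm s (fun _ : X => (0 : ℝ≥0∞)) = 0 := by
  unfold nrm
  simp [hs, ENNReal.zero_rpow_of_pos]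

theorem nrm_add {s : ℝ} (hs : 1 ≤ s) (f g : X → ℝ≥0∞) :
    nrm s (fun x => f x + g x) ≤ nrm s f + nrm s g := by
  let _ : MeasurableSpace X := ⊤
  have := ENNReal.lintegral_Lp_add_le (μ := Measure.count) (f := f) (g := g)
    measurable_from_top.aemeasurable measurable_from_top.aemeasurable hs
  simp only [lintegral_count, Pi.add_apply] at this
  exact this

theorem nrm_sum {s : ℝ} (hs : 1 ≤ s) {ι : Type*} (S : Finset ι) (f : ι → X → ℝ≥0∞) :
    nrm s (fun x => ∑ i ∈ S, f i x) ≤ ∑ i ∈ S, nrm s (f i) := by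
  classical
  induction S using Finset.induction_on with
  | empty => simp [nrm_zero (by linarith : 0 < s)]
  | insert a S ha ih =>
    simp only [Finset.sum_insert ha]
    exact (nrm_add hs _ _).trans (add_le_add_right ih _)

theorem nrm_tsum {s : ℝ} (hs : 1 ≤ s) (g : ℕ → X → ℝ≥0∞) :
    nrm s (fun x => ∑' n, g n x) ≤ ∑' n, nrm s (g n) := by
  have hs0 : 0 < s := by linarith
  rw [nrm_le_iff hs0, ENNReal.tsum_eq_iSup_sum]
  refine iSup_le fun t => ?_
  have h1 : Tendsto (fun K : ℕ => ∑ x ∈ t, (∑ n ∈ Finset.range K, g n x) ^ s) atTop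
      (𝓝 (∑ x ∈ t, (∑' n, g n x) ^ s)) := by
    refine tendsto_finsetSum _ fun x _ => ?_
    exact (ENNReal.continuous_rpow_const.tendsto _).comp (ENNReal.tendsto_nat_tsum _)
  refine le_of_tendsto' h1 fun K => ?_
  have h2 : nrm s (fun x => ∑ n ∈ Finset.range K, g n x) ≤ ∑' n, nrm s (g n) :=
    (nrm_sum hs _ _).trans (ENNReal.sum_le_tsum _)
  rw [nrm_le_iff hs0] at h2
  exact (ENNReal.sum_le_tsum _).trans h2

theorem nrm_mul {s : ℝ} (hs : 0 < s) (c : ℝ≥0∞) (h : X → ℝ≥0∞) :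
    nrm s (fun x => c * h x) = c * nrm s h := by
  unfold nrm
  simp only [ENNReal.mul_rpow_of_nonneg _ _ hs.le]
  rw [ENNReal.tsum_mul_left, ENNReal.mul_rpow_of_nonneg _ _ (by positivity), ← ENNReal.rpow_mul,
    mul_one_div_cancel hs.ne', ENNReal.rpow_one]

theorem nrm_comp {s : ℝ} (e : X ≃ X) (h : X → ℝ≥0∞) : nrm s (fun x => h (e x)) = nrm s h := by
  unfold nrm
  rw [e.tsum_eq (fun x => h x ^ s)]

/-- Hölder's inequality -/
theorem holder {s t : ℝ} (hst : s.HolderConjugate t) (f g : X → ℝ≥0∞) :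
    ∑' x, f x * g x ≤ nrm s f * nrm t g := by
  let _ : MeasurableSpace X := ⊤
  have := ENNReal.lintegral_mul_le_Lp_mul_Lq (μ := Measure.count) hst (f := f) (g := g)
    measurable_from_top.aemeasurable measurable_from_top.aemeasurable
  simp only [lintegral_count, Pi.mul_apply] at this
  exact this

end Pool.Agent.NH14.PC
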