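import Mathlib
import Pool.Agent.NH14.PC.Nrm

set_option autoImplicit false

/-!
# Project PC: intervals of exponents are intersections of rays (PC-7)
-/

namespace Pool.Agent.NH14.PC

theorem t_INT : S_INT := by
  intro J hJ1 hJ ⟨j0, hj0⟩
  have hj01 : 1 < j0 := hJ1 hj0
  have hbelow : BddBelow J := ⟨1, fun j hj => le_of_lt (hJ1 hj)⟩
  have hne : J.Nonempty := ⟨j0, hj0⟩
  have ha1 : 1 ≤ sInf J := le_csInf hne fun j hj => le_of_lt (hJ1 hj)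
  -- the lower ray
  have hU : ∃ U : Set ℝ, (U = Set.Ioi 1 ∨ (∃ r, 1 < r ∧ U = Set.Ici r) ∨
      ∃ r, 1 < r ∧ U = Set.Ioi r) ∧ J ⊆ U ∧ ∀ x ∈ U, ∃ j ∈ J, j ≤ x := by
    have hlt : ∀ x, sInf J < x → ∃ j ∈ J, j ≤ x := fun x hx => by
      obtain ⟨j, hj, hjx⟩ := exists_lt_of_csInf_lt hne hx
      exact ⟨j, hj, hjx.le⟩
    rcases ha1.eq_or_lt with h | h
    · refine ⟨Set.Ioi 1, Or.inl rfl, hJ1, fun x hx => hlt x ?_⟩
      rw [← h]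
      exact hx
    · by_cases haJ : sInf J ∈ J
      · refine ⟨Set.Ici (sInf J), Or.inr (Or.inl ⟨_, h, rfl⟩), fun j hj => csInf_le hbelow hj,
          fun x hx => ⟨_, haJ, hx⟩⟩
      · refine ⟨Set.Ioi (sInf J), Or.inr (Or.inr ⟨_, h, rfl⟩), fun j hj => ?_, fun x hx => hlt x hx⟩
        refine lt_of_le_of_ne (csInf_le hbelow hj) ?_
        rintro h'
        exact haJ (h' ▸ hj)
  -- the upper ray
  have hD : ∃ D : Set ℝ, (D = Set.Ioi 1 ∨ (∃ r, 1 < r ∧ D = Set.Ioc 1 r) ∨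
      ∃ r, 1 < r ∧ D = Set.Ioo 1 r) ∧ J ⊆ D ∧ ∀ x ∈ D, ∃ j ∈ J, x ≤ j := by
    by_cases hB : BddAbove J
    · have hb1 : 1 < sSup J := lt_of_lt_of_le hj01 (le_csSup hB hj0)
      by_cases hbJ : sSup J ∈ J
      · exact ⟨Set.Ioc 1 (sSup J), Or.inr (Or.inl ⟨_, hb1, rfl⟩),
          fun j hj => ⟨hJ1 hj, le_csSup hB hj⟩, fun x hx => ⟨_, hbJ, hx.2⟩⟩
      · refine ⟨Set.Ioo 1 (sSup J), Or.inr (Or.inr ⟨_, hb1, rfl⟩), fun j hj => ⟨hJ1 hj, ?_⟩,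
          fun x hx => ?_⟩
        · refine lt_of_le_of_ne (le_csSup hB hj) ?_
          rintro h'
          exact hbJ (h' ▸ hj)
        · obtain ⟨j, hj, hjx⟩ := exists_lt_of_lt_csSup hne hx.2
          exact ⟨j, hj, hjx.le⟩
    · refine ⟨Set.Ioi 1, Or.inl rfl, hJ1, fun x _ => ?_⟩
      rw [not_bddAbove_iff] at hB
      obtain ⟨j, hj, hjx⟩ := hB x
      exact ⟨j, hj, hjx.le⟩
  obtain ⟨U, hU1, hU2, hU3⟩ := hU
  obtain ⟨D, hD1, hD2, hD3⟩ := hD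
  refine ⟨U, D, ?_, hU1, hD1⟩
  apply Set.Subset.antisymm
  · exact fun j hj => ⟨hU2 hj, hD2 hj⟩
  · rintro x ⟨hx1, hx2⟩
    obtain ⟨j1, hj1, h1⟩ := hU3 x hx1
    obtain ⟨j2, hj2, h2⟩ := hD3 x hx2
    exact hJ.out hj1 hj2 ⟨h1, h2⟩

end Pool.Agent.NH14.PC
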