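import Pool.Agent.NH14.PC.Nrm

set_option autoImplicit false

/-!
# PC-3 LO: the lower bound for a block
-/

namespace Pool.Agent.NH14.PC

open scoped ENNReal

namespace Lo

variable {G : Type} [Group G] {A B : G} {Q : Set G}

theorem pow_B (h : PP A B Q) (m : ℤ) (hm : B ^ m = 1) : m = 0 := by
  by_contra h0
  have h1 := h.one 1 h.nil m h0
  rw [mul_one, hm] at h1
  exact h.nil h1

theorem inj_B (h : PP A B Q) (l m : ℤ) (hm : B ^ l = B ^ m) : l = m := by
  have h1 : B ^ (l - m) = 1 := by rw [zpow_sub, hm, mul_inv_cancel]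
  have := pow_B h _ h1
  omega

theorem inj_AB (h : PP A B Q) (i j l m : ℕ) (hl : 1 ≤ l) (hm : 1 ≤ m)
    (he : A ^ i * B ^ l = A ^ j * B ^ m) : i = j ∧ l = m := by
  have hBQ : ∀ n : ℕ, 1 ≤ n → B ^ n ∈ Q := fun n hn => by
    have := h.one 1 h.nil (n : ℤ) (by omega)
    rwa [mul_one, zpow_natCast] at this
  by_cases hij : i = j
  · subst hij
    refine ⟨rfl, ?_⟩
    have h1 : B ^ l = B ^ m := mul_left_cancel he
    have h2 := inj_B h (l : ℤ) (m : ℤ) (by rw [zpow_natCast, zpow_natCast, h1])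
    omega
  · exfalso
    have h1 : A ^ ((i : ℤ) - j) * B ^ l = B ^ m := by
      rw [sub_eq_neg_add, zpow_add, zpow_neg, zpow_natCast, zpow_natCast, mul_assoc, he,
        inv_mul_cancel_left]
    have h2 := h.two (B ^ l) (hBQ l hl) ((i : ℤ) - j) (by omega)
    rw [h1] at h2
    exact h2 (hBQ m hm)

theorem blk_ge (N M i k : ℕ) (hi : i ∈ Finset.Icc 1 N) (hk : k ∈ Finset.Icc 1 M) :
    (M : ℝ≥0∞)⁻¹ ≤ blk A B N M (A ^ i * B ^ k) := by
  classical
  unfold blk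
  have h1 : (1 : ℝ≥0∞) ≤ ∑ i' ∈ Finset.Icc 1 N, ∑ k' ∈ Finset.Icc 1 M,
      if A ^ i' * B ^ k' = A ^ i * B ^ k then (1 : ℝ≥0∞) else 0 := by
    refine le_trans ?_ (Finset.single_le_sum (fun _ _ => bot_le) hi)
    refine le_trans ?_ (Finset.single_le_sum (fun _ _ => bot_le) hk)
    simp
  calc (M : ℝ≥0∞)⁻¹ = (M : ℝ≥0∞)⁻¹ * 1 := (mul_one _).symm
    _ ≤ _ := by
      gcongr

open Classical in
/-- the test function -/
noncomputable def tf (B : G) (M : ℕ) (x : G) : ℝ≥0∞ :=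
  if x ∈ (Finset.Ioo (-(M : ℤ)) M).image (fun l : ℤ => B ^ l) then 1 else 0

theorem tf_one (M : ℕ) (l : ℤ) (h1 : -(M : ℤ) < l) (h2 : l < M) : tf B M (B ^ l) = 1 := by
  classical
  unfold tf
  rw [if_pos]
  exact Finset.mem_image.2 ⟨l, Finset.mem_Ioo.2 ⟨h1, h2⟩, rfl⟩

theorem cv_ge (h : PP A B Q) (N M i l : ℕ) (hM : 1 ≤ M) (hi : i ∈ Finset.Icc 1 N)
    (hl : l ∈ Finset.Icc 1 M) : 1 ≤ cv (blk A B N M) (tf B M) (A ^ i * B ^ l) := by
  classical
  unfold cv
  have hl' := Finset.mem_Icc.1 hl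
  refine le_trans ?_ (ENNReal.sum_le_tsum
    ((Finset.Icc 1 M).image (fun k : ℕ => B ^ ((l : ℤ) - k))))
  rw [Finset.sum_image (fun a _ b _ hab => by
    have := inj_B h _ _ hab
    omega)]
  have h1 : ∀ k ∈ Finset.Icc 1 M, (M : ℝ≥0∞)⁻¹ ≤
      blk A B N M (A ^ i * B ^ l * (B ^ ((l : ℤ) - k))⁻¹) * tf B M (B ^ ((l : ℤ) - k)) := by
    intro k hk
    have hk' := Finset.mem_Icc.1 hk
    rw [tf_one M _ (by omega) (by omega), mul_one]
    have h2 : A ^ i * B ^ l * (B ^ ((l : ℤ) - k))⁻¹ = A ^ i * B ^ k := by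
      rw [mul_assoc, ← zpow_neg, ← zpow_natCast B l, ← zpow_add, ← zpow_natCast B k]
      congr 2
      ring
    rw [h2]
    exact blk_ge N M i k hi hk
  calc (1 : ℝ≥0∞) = ∑ _k ∈ Finset.Icc 1 M, (M : ℝ≥0∞)⁻¹ := by
        rw [Finset.sum_const, Nat.card_Icc, Nat.add_sub_cancel, nsmul_eq_mul,
          ENNReal.mul_inv_cancel]
        · exact_mod_cast (by omega : M ≠ 0)
        · exact ENNReal.natCast_ne_top M
    _ ≤ _ := Finset.sum_le_sum h1

theorem tf_nrm (B : G) (M : ℕ) {s : ℝ} (hs : 0 < s) : nrm s (tf B M) ^ s ≤ 2 * M := by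
  classical
  rw [nrm_rpow hs, tsum_eq_sum (s := (Finset.Ioo (-(M : ℤ)) M).image (fun l : ℤ => B ^ l))]
  · calc ∑ x ∈ (Finset.Ioo (-(M : ℤ)) M).image (fun l : ℤ => B ^ l), tf B M x ^ s
        ≤ ∑ x ∈ (Finset.Ioo (-(M : ℤ)) M).image (fun l : ℤ => B ^ l), (1 : ℝ≥0∞) := by
          refine Finset.sum_le_sum fun x _ => ?_
          unfold tf
          split_ifs
          rw [ENNReal.one_rpow]
      _ = (((Finset.Ioo (-(M : ℤ)) M).image (fun l : ℤ => B ^ l)).card : ℝ≥0∞) := by simp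
      _ ≤ ((2 * M : ℕ) : ℝ≥0∞) := by
          refine Nat.cast_le.2 (Finset.card_image_le.trans ?_)
          rw [Int.card_Ioo]
          omega
      _ = _ := by push_cast; rfl
  · intro x hx
    unfold tf
    rw [if_neg (by convert hx), ENNReal.zero_rpow_of_pos hs]

theorem tf_fin (B : G) (M : ℕ) : (tf B M).support.Finite := by
  classical
  refine ((Finset.Ioo (-(M : ℤ)) M).image (fun l : ℤ => B ^ l)).finite_toSet.subset ?_
  intro x hx
  by_contra hc
  apply hx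
  unfold tf
  rw [if_neg]
  intro h
  apply hc
  rw [Finset.mem_coe]
  convert h

theorem tf_top (B : G) (M : ℕ) (x : G) : tf B M x ≠ ⊤ := by
  unfold tf
  split_ifs <;> simp

end Lo

open Lo in
theorem t_LO : S_LO := by
  classical
  intro G _ A B Q hPP s hs N M hM c hc
  have h1 := hc (tf B M) (tf_fin B M) (tf_top B M)
  have h2 : nrm s (cv (blk A B N M) (tf B M)) ^ s ≤ c ^ s * (2 * M) := by
    calc nrm s (cv (blk A B N M) (tf B M)) ^ s ≤ (c * nrm s (tf B M)) ^ s :=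
          ENNReal.rpow_le_rpow h1 hs.le
      _ = c ^ s * nrm s (tf B M) ^ s := ENNReal.mul_rpow_of_nonneg _ _ hs.le
      _ ≤ _ := by
        gcongr
        exact tf_nrm B M hs
  have h3 : (N : ℝ≥0∞) * M ≤ nrm s (cv (blk A B N M) (tf B M)) ^ s := by
    rw [nrm_rpow hs]
    refine le_trans ?_ (ENNReal.sum_le_tsum
      ((Finset.Icc 1 N ×ˢ Finset.Icc 1 M).image (fun q : ℕ × ℕ => A ^ q.1 * B ^ q.2)))
    rw [Finset.sum_image (fun a ha b hb hab => by
      have ha' := Finset.mem_product.1 (Finset.mem_coe.1 ha)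
      have hb' := Finset.mem_product.1 (Finset.mem_coe.1 hb)
      have := inj_AB hPP a.1 b.1 a.2 b.2 (Finset.mem_Icc.1 ha'.2).1 (Finset.mem_Icc.1 hb'.2).1 hab
      exact Prod.ext this.1 this.2)]
    calc (N : ℝ≥0∞) * M = ∑ _q ∈ Finset.Icc 1 N ×ˢ Finset.Icc 1 M, (1 : ℝ≥0∞) := by
          rw [Finset.sum_const, Finset.card_product, Nat.card_Icc, Nat.card_Icc,
            Nat.add_sub_cancel, Nat.add_sub_cancel, nsmul_eq_mul, mul_one]
          push_cast
          rfl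
      _ ≤ _ := by
        refine Finset.sum_le_sum fun q hq => ?_
        have hq' := Finset.mem_product.1 hq
        exact ENNReal.one_le_rpow (cv_ge hPP N M q.1 q.2 hM hq'.1 hq'.2) hs
  have h4 : (N : ℝ≥0∞) * M ≤ (2 * c ^ s) * M := by
    refine (h3.trans h2).trans (le_of_eq ?_)
    ring
  have hM0 : (M : ℝ≥0∞) ≠ 0 := by exact_mod_cast (by omega : M ≠ 0)
  exact (ENNReal.mul_le_mul_iff_left hM0 (ENNReal.natCast_ne_top M)).1 h4

end Pool.Agent.NH14.PC
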