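import Pool.Agent.NH14.PC.Nrm

/-! Piece PC-1 of project PC: a group containing a free group of rank two has a ping-pong set. -/

set_option autoImplicit false

namespace Pool.Agent.NH14.PC.Ppg

/-- the shear `(x, y) ↦ (x + 3 y, y)` -/
def alP : Equiv.Perm (ℤ × ℤ) where
  toFun p := (p.1 + 3 * p.2, p.2)
  invFun p := (p.1 - 3 * p.2, p.2)
  left_inv := fun p => by ext <;> simp
  right_inv := fun p => by ext <;> simp

/-- the shear `(x, y) ↦ (x, 3 x + y)` -/
def beP : Equiv.Perm (ℤ × ℤ) where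
  toFun p := (p.1, 3 * p.1 + p.2)
  invFun p := (p.1, p.2 - 3 * p.1)
  left_inv := fun p => by ext <;> simp
  right_inv := fun p => by ext <;> simp

theorem alP_apply (p : ℤ × ℤ) : alP p = (p.1 + 3 * p.2, p.2) := rfl
theorem alP_inv (p : ℤ × ℤ) : alP⁻¹ p = (p.1 - 3 * p.2, p.2) := rfl
theorem beP_apply (p : ℤ × ℤ) : beP p = (p.1, 3 * p.1 + p.2) := rfl
theorem beP_inv (p : ℤ × ℤ) : beP⁻¹ p = (p.1, p.2 - 3 * p.1) := rfl

theorem alP_zpow (m : ℤ) : ∀ p : ℤ × ℤ, (alP ^ m) p = (p.1 + 3 * m * p.2, p.2) := by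
  induction m using Int.induction_on with
  | zero => intro p; simp
  | succ m ih =>
    intro p
    rw [zpow_add_one, Equiv.Perm.mul_apply, alP_apply, ih]
    ext
    · simp only; ring
    · rfl
  | pred m ih =>
    intro p
    rw [zpow_sub_one, Equiv.Perm.mul_apply, alP_inv, ih]
    ext
    · simp only; ring
    · rfl

theorem beP_zpow (m : ℤ) : ∀ p : ℤ × ℤ, (beP ^ m) p = (p.1, 3 * m * p.1 + p.2) := by
  induction m using Int.induction_on with
  | zero => intro p; simp
  | succ m ih =>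
    intro p
    rw [zpow_add_one, Equiv.Perm.mul_apply, beP_apply, ih]
    ext
    · rfl
    · simp only; ring
  | pred m ih =>
    intro p
    rw [zpow_sub_one, Equiv.Perm.mul_apply, beP_inv, ih]
    ext
    · rfl
    · simp only; ring

/-- the action of the free group -/
noncomputable def rho : FreeGroup (Fin 2) →* Equiv.Perm (ℤ × ℤ) := FreeGroup.lift ![alP, beP]

theorem rho_a (m : ℤ) : rho (FreeGroup.of 0 ^ m) = alP ^ m := by
  rw [map_zpow]; simp [rho]

theorem rho_b (m : ℤ) : rho (FreeGroup.of 1 ^ m) = beP ^ m := by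
  rw [map_zpow]; simp [rho]

theorem rho_zero (u : FreeGroup (Fin 2)) : rho u (0, 0) = (0, 0) := by
  induction u using FreeGroup.induction_on with
  | C1 => simp
  | of x =>
    fin_cases x
    · have := rho_a 1
      simp only [zpow_one] at this
      simp only [Fin.zero_eta, Fin.isValue]
      rw [this, alP_apply]; simp
    · have := rho_b 1
      simp only [zpow_one] at this
      simp only [Fin.mk_one, Fin.isValue]
      rw [this, beP_apply]; simp
  | inv_of x ih =>
    rw [map_inv, Equiv.Perm.inv_eq_iff_eq, ih]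
  | mul u v hu hv => rw [map_mul, Equiv.Perm.mul_apply, hv, hu]

theorem rho_ne (u : FreeGroup (Fin 2)) : rho u (1, 0) ≠ (0, 0) := by
  intro h
  have h1 := (rho u).injective (h.trans (rho_zero u).symm)
  simp at h1

/-- the ping-pong set of the free group -/
def P : Set (FreeGroup (Fin 2)) := {u | |(rho u (1, 0)).1| < |(rho u (1, 0)).2|}

theorem P_one (u : FreeGroup (Fin 2)) (hu : u ∉ P) (m : ℤ) (hm : m ≠ 0) :
    FreeGroup.of 1 ^ m * u ∈ P := by
  have hne := rho_ne u
  simp only [P, Set.mem_ofPred_eq, not_lt] at hu ⊢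
  rw [map_mul, Equiv.Perm.mul_apply, rho_b, beP_zpow]
  set x := (rho u (1, 0)).1 with hx
  set y := (rho u (1, 0)).2 with hy
  have hx0 : x ≠ 0 := by
    intro h0
    rw [h0, abs_zero] at hu
    have hy0 : y = 0 := abs_eq_zero.1 (le_antisymm hu (abs_nonneg _))
    exact hne (Prod.ext (by rw [← hx, h0]) (by rw [← hy, hy0]))
  have hm1 : 1 ≤ |m| := Int.one_le_abs hm
  have hx1 : 1 ≤ |x| := Int.one_le_abs hx0
  have h1 : |3 * m * x| = 3 * |m| * |x| := by rw [abs_mul, abs_mul]; norm_num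
  have h2 : |3 * m * x| ≤ |3 * m * x + y| + |y| := by
    have := abs_sub (3 * m * x + y) y
    simpa using this
  simp only
  nlinarith [mul_le_mul_of_nonneg_right hm1 (abs_nonneg x)]

theorem P_two (u : FreeGroup (Fin 2)) (hu : u ∈ P) (m : ℤ) (hm : m ≠ 0) :
    FreeGroup.of 0 ^ m * u ∉ P := by
  simp only [P, Set.mem_ofPred_eq, not_lt] at hu ⊢
  rw [map_mul, Equiv.Perm.mul_apply, rho_a, alP_zpow]
  set x := (rho u (1, 0)).1 with hx
  set y := (rho u (1, 0)).2 with hy
  have hm1 : 1 ≤ |m| := Int.one_le_abs hm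
  have h1 : |3 * m * y| = 3 * |m| * |y| := by rw [abs_mul, abs_mul]; norm_num
  have h2 : |3 * m * y| ≤ |x + 3 * m * y| + |x| := by
    have := abs_sub (x + 3 * m * y) x
    simpa using this
  simp only
  nlinarith [mul_le_mul_of_nonneg_right hm1 (abs_nonneg y), abs_nonneg x, abs_nonneg y]

end Ppg

open Ppg in
theorem t_PPG : S_PPG := by
  intro G _ φ hφ
  set H : Subgroup G := φ.range with hH
  set t : G → G := fun g => (Quotient.mk (QuotientGroup.rightRel H) g).out with ht
  have ht1 : ∀ (u : FreeGroup (Fin 2)) (g : G), t (φ u * g) = t g := by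
    intro u g
    simp only [ht]
    refine congrArg Quotient.out (Quotient.sound ?_)
    refine QuotientGroup.rightRel_apply.2 ?_
    rw [mul_inv_rev, ← mul_assoc, mul_inv_cancel, one_mul]
    exact H.inv_mem ⟨u, rfl⟩
  have ht2 : ∀ g : G, ∃ w, φ w = g * (t g)⁻¹ := by
    intro g
    have h1 : (QuotientGroup.rightRel H) (t g) g := Quotient.mk_out g
    exact QuotientGroup.rightRel_apply.1 h1
  choose w hw using ht2
  have hw1 : ∀ (u : FreeGroup (Fin 2)) (g : G), w (φ u * g) = u * w g := by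
    intro u g
    apply hφ
    rw [hw, map_mul, hw, ht1, mul_assoc]
  have one0 : ∀ g, w g ∉ P → ∀ m : ℤ, m ≠ 0 → w (φ (FreeGroup.of 1) ^ m * g) ∈ P := by
    intro g hg m hm
    rw [← map_zpow, hw1]
    exact P_one _ hg m hm
  have two0 : ∀ g, w g ∈ P → ∀ m : ℤ, m ≠ 0 → w (φ (FreeGroup.of 0) ^ m * g) ∉ P := by
    intro g hg m hm
    rw [← map_zpow, hw1]
    exact P_two _ hg m hm
  obtain ⟨g0, hg0⟩ : ∃ g0, w g0 ∉ P := by
    by_cases h : w 1 ∈ P
    · exact ⟨_, two0 1 h 1 one_ne_zero⟩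
    · exact ⟨1, h⟩
  refine ⟨φ (FreeGroup.of 0), φ (FreeGroup.of 1), {g | w (g * g0) ∈ P}, ?_, ?_, ?_⟩
  · intro g hg m hm
    simp only [Set.mem_ofPred_eq] at hg ⊢
    rw [mul_assoc]
    exact one0 _ hg m hm
  · intro g hg m hm
    simp only [Set.mem_ofPred_eq] at hg ⊢
    rw [mul_assoc]
    exact two0 _ hg m hm
  · simpa using hg0

end Pool.Agent.NH14.PC

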