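import Mathlib

set_option autoImplicit false

/-!
# Project PC (MP_830418_an): convolvers of `ℓ^s(G)` for groups containing a free group

Statements of the pieces (`S_...`).
-/

namespace Pool.Agent.NH14.PC

open scoped ENNReal

/-- the `ℓ^s` norm of a nonnegative function -/
noncomputable def nrm {X : Type*} (s : ℝ) (h : X → ℝ≥0∞) : ℝ≥0∞ := (∑' x, h x ^ s) ^ (1 / s)

/-- convolution of nonnegative functions: `(F * h)(x) = ∑_k F(x k⁻¹) h(k)` -/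
noncomputable def cv {G : Type} [Group G] (F h : G → ℝ≥0∞) (x : G) : ℝ≥0∞ :=
  ∑' k, F (x * k⁻¹) * h k

/-- convolution by `F` has norm at most `c` on the finitely supported functions of `ℓ^s` -/
def FB {G : Type} [Group G] (s : ℝ) (F : G → ℝ≥0∞) (c : ℝ≥0∞) : Prop :=
  ∀ h : G → ℝ≥0∞, h.support.Finite → (∀ x, h x ≠ ⊤) → nrm s (cv F h) ≤ c * nrm s h

/-- convolution by `F` is bounded on `ℓ^s` -/
def Ok {G : Type} [Group G] (s : ℝ) (F : G → ℝ≥0∞) : Prop := ∃ c : ℝ≥0∞, c ≠ ⊤ ∧ FB s F c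

/-- complex functions: `f` is an `s`-convolver (the form used by the frozen statement) -/
def Cx {G : Type} [Group G] (s : ℝ) (f : G → ℂ) : Prop :=
  ∃ C : ℝ, ∀ ξ : G →₀ ℂ,
    Summable (fun g : G => ‖∑ k ∈ ξ.support, f (g * k⁻¹) * ξ k‖ ^ s) ∧
    ∑' g : G, ‖∑ k ∈ ξ.support, f (g * k⁻¹) * ξ k‖ ^ s ≤ C * ∑ k ∈ ξ.support, ‖ξ k‖ ^ s

/-- a ping-pong set for left multiplication by `A` and `B` -/
structure PP {G : Type} [Group G] (A B : G) (Q : Set G) : Prop where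
  one : ∀ g, g ∉ Q → ∀ m : ℤ, m ≠ 0 → B ^ m * g ∈ Q
  two : ∀ g, g ∈ Q → ∀ m : ℤ, m ≠ 0 → A ^ m * g ∉ Q
  nil : (1 : G) ∉ Q

open Classical in
/-- the block `(∑_{i=1}^N δ_{A^i}) * (1/M ∑_{k=1}^M δ_{B^k})` -/
noncomputable def blk {G : Type} [Group G] (A B : G) (N M : ℕ) (x : G) : ℝ≥0∞ :=
  (M : ℝ≥0∞)⁻¹ * ∑ i ∈ Finset.Icc 1 N, ∑ k ∈ Finset.Icc 1 M,
    if A ^ i * B ^ k = x then (1 : ℝ≥0∞) else 0

/-- PC-1 PPG: a group containing a free group of rank two has a ping-pong set -/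
def S_PPG : Prop :=
  ∀ (G : Type) [Group G] (φ : FreeGroup (Fin 2) →* G), Function.Injective φ →
    ∃ (A B : G) (Q : Set G), PP A B Q

/-- PC-2 UP: the upper bound for a block -/
def S_UP : Prop :=
  ∀ (G : Type) [Group G] (A B : G) (Q : Set G), PP A B Q → ∀ (s : ℝ), 1 ≤ s →
    ∀ N M : ℕ, 1 ≤ M → ∀ h : G → ℝ≥0∞,
      nrm s (cv (blk A B N M) h) ≤
        ((N : ℝ≥0∞) ^ (1 / s) + (N : ℝ≥0∞) * ((M : ℝ≥0∞)⁻¹) ^ (1 / s)) * nrm s h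

/-- PC-3 LO: the lower bound for a block -/
def S_LO : Prop :=
  ∀ (G : Type) [Group G] (A B : G) (Q : Set G), PP A B Q → ∀ (s : ℝ), 0 < s →
    ∀ N M : ℕ, 1 ≤ M → ∀ c : ℝ≥0∞, FB s (blk A B N M) c → (N : ℝ≥0∞) ≤ 2 * c ^ s

/-- PC-4 DU: duality -/
def S_DU : Prop :=
  ∀ (G : Type) [Group G] (F : G → ℝ≥0∞), (∀ x, F x ≠ ⊤) → ∀ s : ℝ, 1 < s →
    Ok (s / (s - 1)) F → Ok s (fun x => F x⁻¹)

/-- PC-5 CX: from nonnegative functions to complex functions -/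
def S_CX : Prop :=
  ∀ (G : Type) [Group G] (F : G → ℝ≥0∞), (∀ x, F x ≠ ⊤) → ∀ s : ℝ, 1 ≤ s →
    (Cx s (fun x => (((F x).toReal : ℝ) : ℂ)) ↔ Ok s F)

/-- PC-6 WT: the weights -/
def S_WT : Prop :=
  ∀ r : ℝ, 1 < r →
    (∃ c : ℕ → ℝ≥0∞, (∀ n, c n ≠ ⊤) ∧
      (∀ s, r ≤ s → ∑' n, c n * (2 : ℝ≥0∞) ^ ((n : ℝ) / s) ≠ ⊤) ∧
      ∀ s, 1 < s → s < r → ∀ K : ℝ≥0∞, K ≠ ⊤ → ∃ n : ℕ, K < c n * (2 : ℝ≥0∞) ^ ((n : ℝ) / s)) ∧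
    ∃ c : ℕ → ℝ≥0∞, (∀ n, c n ≠ ⊤) ∧
      (∀ s, r < s → ∑' n, c n * (2 : ℝ≥0∞) ^ ((n : ℝ) / s) ≠ ⊤) ∧
      ∀ s, 1 < s → s ≤ r → ∀ K : ℝ≥0∞, K ≠ ⊤ → ∃ n : ℕ, K < c n * (2 : ℝ≥0∞) ^ ((n : ℝ) / s)

/-- PC-7 INT: intervals of exponents are intersections of rays -/
def S_INT : Prop :=
  ∀ J : Set ℝ, J ⊆ Set.Ioi 1 → J.OrdConnected → J.Nonempty →
    ∃ U D : Set ℝ, J = U ∩ D ∧
      (U = Set.Ioi 1 ∨ (∃ r, 1 < r ∧ U = Set.Ici r) ∨ ∃ r, 1 < r ∧ U = Set.Ioi r) ∧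
      (D = Set.Ioi 1 ∨ (∃ r, 1 < r ∧ D = Set.Ioc 1 r) ∨ ∃ r, 1 < r ∧ D = Set.Ioo 1 r)

end Pool.Agent.NH14.PC
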