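import Pool.Agent.NH14.PC.Nrm

set_option autoImplicit false

/-!
# Project PC (PC-2): the upper bound for a block
-/

namespace Pool.Agent.NH14.PC

open scoped ENNReal
open Finset

namespace Up

variable {G : Type} [Group G]

/-- the average over `B` -/
noncomputable def eta (B : G) (M : ℕ) (h : G → ℝ≥0∞) (g : G) : ℝ≥0∞ :=
  (M : ℝ≥0∞)⁻¹ * ∑ k ∈ Icc 1 M, h ((B ^ k)⁻¹ * g)

theorem cv_blk (A B : G) (N M : ℕ) (h : G → ℝ≥0∞) (x : G) :
    cv (blk A B N M) h x = ∑ i ∈ Icc 1 N, eta B M h ((A ^ i)⁻¹ * x) := by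
  classical
  unfold cv blk eta
  have h1 : ∀ y : G, (M : ℝ≥0∞)⁻¹ * (∑ i ∈ Icc 1 N, ∑ k ∈ Icc 1 M,
      if A ^ i * B ^ k = x * y⁻¹ then (1 : ℝ≥0∞) else 0) * h y =
      (M : ℝ≥0∞)⁻¹ * ∑ i ∈ Icc 1 N, ∑ k ∈ Icc 1 M,
        if y = (B ^ k)⁻¹ * ((A ^ i)⁻¹ * x) then h y else 0 := by
    intro y
    rw [mul_assoc, sum_mul]
    congr 1
    refine sum_congr rfl fun i _ => ?_
    rw [sum_mul]
    refine sum_congr rfl fun k _ => ?_
    have h2 : A ^ i * B ^ k = x * y⁻¹ ↔ y = (B ^ k)⁻¹ * ((A ^ i)⁻¹ * x) := by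
      constructor
      · intro h
        have h3 : x = A ^ i * B ^ k * y := by rw [h]; group
        rw [h3]; group
      · intro h
        rw [h]; group
    by_cases h3 : y = (B ^ k)⁻¹ * ((A ^ i)⁻¹ * x)
    · rw [if_pos h3, if_pos (h2.2 h3), one_mul]
    · rw [if_neg h3, if_neg (fun h => h3 (h2.1 h)), zero_mul]
  simp only [h1]
  rw [ENNReal.tsum_mul_left, Summable.tsum_finsetSum fun _ _ => ENNReal.summable, mul_sum]
  refine sum_congr rfl fun i _ => ?_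
  rw [Summable.tsum_finsetSum fun _ _ => ENNReal.summable]
  congr 1
  refine sum_congr rfl fun k _ => ?_
  rw [tsum_ite_eq]

theorem sum_rpow {s : ℝ} (hs : 0 < s) {ι : Type} (S : Finset ι) (a : ι → ℝ≥0∞)
    (h : ∀ i ∈ S, ∀ j ∈ S, a i ≠ 0 → a j ≠ 0 → i = j) :
    (∑ i ∈ S, a i) ^ s = ∑ i ∈ S, a i ^ s := by
  by_cases h0 : ∀ i ∈ S, a i = 0
  · rw [sum_eq_zero h0, ENNReal.zero_rpow_of_pos hs]
    symm
    refine sum_eq_zero fun i hi => ?_
    rw [h0 i hi, ENNReal.zero_rpow_of_pos hs]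
  · push Not at h0
    obtain ⟨i, hi, hi0⟩ := h0
    rw [sum_eq_single_of_mem i hi, sum_eq_single_of_mem i hi]
    · intro j hj hji
      by_contra h1
      have h2 : a j ≠ 0 := by
        intro h3
        rw [h3, ENNReal.zero_rpow_of_pos hs] at h1
        exact h1 rfl
      exact hji (h j hj i hi h2 hi0)
    · intro j hj hji
      by_contra h1
      exact hji (h j hj i hi h1 hi0)

theorem nrm_eta {s : ℝ} (hs : 1 ≤ s) (B : G) {M : ℕ} (hM : 1 ≤ M) (h : G → ℝ≥0∞) :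
    nrm s (eta B M h) ≤ nrm s h := by
  unfold eta
  rw [nrm_mul (by linarith)]
  have h1 : nrm s (fun g => ∑ k ∈ Icc 1 M, h ((B ^ k)⁻¹ * g)) ≤ (M : ℝ≥0∞) * nrm s h := by
    refine (nrm_sum hs (Icc 1 M) (fun k g => h ((B ^ k)⁻¹ * g))).trans ?_
    have h2 : ∀ k ∈ Icc 1 M, nrm s (fun g => h ((B ^ k)⁻¹ * g)) = nrm s h := fun k _ =>
      nrm_comp (Equiv.mulLeft (B ^ k)⁻¹) h
    rw [sum_congr rfl h2, sum_const, Nat.card_Icc, nsmul_eq_mul, Nat.add_sub_cancel]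
  have hM0 : (M : ℝ≥0∞) ≠ 0 := by exact_mod_cast (by omega : M ≠ 0)
  calc (M : ℝ≥0∞)⁻¹ * nrm s (fun g => ∑ k ∈ Icc 1 M, h ((B ^ k)⁻¹ * g))
      ≤ (M : ℝ≥0∞)⁻¹ * ((M : ℝ≥0∞) * nrm s h) := by gcongr
    _ = nrm s h := by
      rw [← mul_assoc, ENNReal.inv_mul_cancel hM0 (ENNReal.natCast_ne_top M), one_mul]

open Classical in
theorem part_one {A B : G} {Q : Set G} (hQ : PP A B Q) {s : ℝ} (hs : 1 ≤ s) (N : ℕ)
    (η : G → ℝ≥0∞) :
    nrm s (fun x => ∑ i ∈ Icc 1 N, Q.indicator η ((A ^ i)⁻¹ * x)) ≤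
      (N : ℝ≥0∞) ^ (1 / s) * nrm s η := by
  have hs0 : 0 < s := by linarith
  rw [nrm_le_iff hs0, ENNReal.mul_rpow_of_nonneg _ _ hs0.le, nrm_rpow hs0, ← ENNReal.rpow_mul,
    one_div_mul_cancel hs0.ne', ENNReal.rpow_one]
  have h1 : ∀ x, (∑ i ∈ Icc 1 N, Q.indicator η ((A ^ i)⁻¹ * x)) ^ s =
      ∑ i ∈ Icc 1 N, (Q.indicator η ((A ^ i)⁻¹ * x)) ^ s := by
    intro x
    apply sum_rpow hs0
    intro i _ j _ hi hj
    have hi' : (A ^ i)⁻¹ * x ∈ Q := Set.mem_of_indicator_ne_zero hi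
    have hj' : (A ^ j)⁻¹ * x ∈ Q := Set.mem_of_indicator_ne_zero hj
    by_contra hij
    have h2 := hQ.two _ hi' ((i : ℤ) - j) (by omega)
    apply h2
    have h3 : A ^ ((i : ℤ) - j) * ((A ^ i)⁻¹ * x) = (A ^ j)⁻¹ * x := by
      rw [← zpow_natCast, ← zpow_natCast, ← mul_assoc, ← zpow_neg, ← zpow_add, ← zpow_neg]
      congr 2
      ring
    rw [h3]
    exact hj'
  simp only [h1]
  rw [Summable.tsum_finsetSum fun _ _ => ENNReal.summable]
  have h2 : ∀ i ∈ Icc 1 N, ∑' x, (Q.indicator η ((A ^ i)⁻¹ * x)) ^ s ≤ ∑' x, η x ^ s := by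
    intro i _
    have h3 := (Equiv.mulLeft (A ^ i)⁻¹).tsum_eq (fun y => (Q.indicator η y) ^ s)
    have h4 : ∑' x, (Q.indicator η ((A ^ i)⁻¹ * x)) ^ s = ∑' y, (Q.indicator η y) ^ s := h3
    rw [h4]
    refine ENNReal.tsum_le_tsum fun y => ENNReal.rpow_le_rpow ?_ hs0.le
    exact Set.indicator_le_self' (fun _ _ => zero_le) y
  refine (sum_le_sum h2).trans ?_
  rw [sum_const, Nat.card_Icc, nsmul_eq_mul, Nat.add_sub_cancel]

open Classical in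
theorem part_two {A B : G} {Q : Set G} (hQ : PP A B Q) {s : ℝ} (hs : 1 ≤ s) {M : ℕ} (hM : 1 ≤ M)
    (h : G → ℝ≥0∞) :
    nrm s (Qᶜ.indicator (eta B M h)) ≤ ((M : ℝ≥0∞)⁻¹) ^ (1 / s) * nrm s h := by
  have hs0 : 0 < s := by linarith
  have hM0 : (M : ℝ≥0∞) ≠ 0 := by exact_mod_cast (by omega : M ≠ 0)
  rw [nrm_le_iff hs0, ENNReal.mul_rpow_of_nonneg _ _ hs0.le, nrm_rpow hs0, ← ENNReal.rpow_mul,
    one_div_mul_cancel hs0.ne', ENNReal.rpow_one]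
  have h1 : ∀ g, (Qᶜ.indicator (eta B M h) g) ^ s ≤
      ∑ k ∈ Icc 1 M, (M : ℝ≥0∞)⁻¹ * Qᶜ.indicator (fun g => h ((B ^ k)⁻¹ * g) ^ s) g := by
    intro g
    by_cases hg : g ∈ Qᶜ
    · simp only [Set.indicator_of_mem hg]
      unfold eta
      rw [mul_sum]
      refine ENNReal.rpow_arith_mean_le_arith_mean_rpow (Icc 1 M) (fun _ => (M : ℝ≥0∞)⁻¹)
        (fun k => h ((B ^ k)⁻¹ * g)) ?_ hs
      rw [sum_const, Nat.card_Icc, nsmul_eq_mul, Nat.add_sub_cancel]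
      exact ENNReal.mul_inv_cancel hM0 (ENNReal.natCast_ne_top M)
    · simp only [Set.indicator_of_notMem hg, ENNReal.zero_rpow_of_pos hs0]
      exact zero_le
  refine (ENNReal.tsum_le_tsum h1).trans ?_
  rw [Summable.tsum_finsetSum fun _ _ => ENNReal.summable]
  have h2 : ∀ k ∈ Icc 1 M, ∑' g, (M : ℝ≥0∞)⁻¹ * Qᶜ.indicator (fun g => h ((B ^ k)⁻¹ * g) ^ s) g =
      ∑' y, (M : ℝ≥0∞)⁻¹ * (Qᶜ.indicator (fun _ => (1 : ℝ≥0∞)) (B ^ k * y) * h y ^ s) := by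
    intro k _
    rw [← (Equiv.mulLeft (B ^ k)).tsum_eq
      (fun g => (M : ℝ≥0∞)⁻¹ * Qᶜ.indicator (fun g => h ((B ^ k)⁻¹ * g) ^ s) g)]
    refine tsum_congr fun y => ?_
    rw [Equiv.coe_mulLeft]
    congr 1
    by_cases hy : B ^ k * y ∈ Qᶜ
    · rw [Set.indicator_of_mem hy, Set.indicator_of_mem hy, one_mul, inv_mul_cancel_left]
    · rw [Set.indicator_of_notMem hy, Set.indicator_of_notMem hy, zero_mul]
  rw [sum_congr rfl h2, ← Summable.tsum_finsetSum fun _ _ => ENNReal.summable,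
    ← ENNReal.tsum_mul_left]
  refine ENNReal.tsum_le_tsum fun y => ?_
  rw [← mul_sum, ← sum_mul]
  refine mul_le_mul_right (mul_le_of_le_one_left (zero_le) ?_) _
  by_cases h0 : ∃ k ∈ Icc 1 M, B ^ k * y ∈ Qᶜ
  · obtain ⟨k, hk, hky⟩ := h0
    rw [sum_eq_single_of_mem k hk, Set.indicator_of_mem hky]
    intro l _ hlk
    apply Set.indicator_of_notMem
    have h3 := hQ.one _ hky ((l : ℤ) - k) (by omega)
    have h4 : B ^ ((l : ℤ) - k) * (B ^ k * y) = B ^ l * y := by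
      rw [← zpow_natCast, ← zpow_natCast, ← mul_assoc, ← zpow_add]
      congr 2
      ring
    rw [h4] at h3
    exact fun h5 => h5 h3
  · push Not at h0
    rw [sum_eq_zero]
    · exact zero_le
    · intro k hk
      exact Set.indicator_of_notMem (h0 k hk) _

end Up

/-- PC-2 -/
theorem t_UP : S_UP := by
  classical
  intro G _ A B Q hQ s hs N M hM h
  have hs0 : 0 < s := by linarith
  have h1 : ∀ x, cv (blk A B N M) h x =
      (∑ i ∈ Icc 1 N, Q.indicator (Up.eta B M h) ((A ^ i)⁻¹ * x)) +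
      ∑ i ∈ Icc 1 N, Qᶜ.indicator (Up.eta B M h) ((A ^ i)⁻¹ * x) := by
    intro x
    rw [Up.cv_blk, ← sum_add_distrib]
    refine sum_congr rfl fun i _ => ?_
    exact (congrFun (Set.indicator_self_add_compl Q (Up.eta B M h)) _).symm
  have h2 : cv (blk A B N M) h = fun x =>
      (∑ i ∈ Icc 1 N, Q.indicator (Up.eta B M h) ((A ^ i)⁻¹ * x)) +
      ∑ i ∈ Icc 1 N, Qᶜ.indicator (Up.eta B M h) ((A ^ i)⁻¹ * x) := funext h1
  rw [h2, add_mul]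
  refine (nrm_add hs _ _).trans (add_le_add ?_ ?_)
  · refine (Up.part_one hQ hs N _).trans ?_
    gcongr
    exact Up.nrm_eta hs B hM h
  · refine (nrm_sum hs (Icc 1 N)
      (fun i x => Qᶜ.indicator (Up.eta B M h) ((A ^ i)⁻¹ * x))).trans ?_
    have h3 : ∀ i ∈ Icc 1 N, nrm s (fun x => Qᶜ.indicator (Up.eta B M h) ((A ^ i)⁻¹ * x)) ≤
        ((M : ℝ≥0∞)⁻¹) ^ (1 / s) * nrm s h := by
      intro i _
      have h4 : nrm s (fun x => Qᶜ.indicator (Up.eta B M h) ((A ^ i)⁻¹ * x)) =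
          nrm s (Qᶜ.indicator (Up.eta B M h)) :=
        nrm_comp (Equiv.mulLeft (A ^ i)⁻¹) _
      rw [h4]
      exact Up.part_two hQ hs hM h
    refine (sum_le_sum h3).trans ?_
    rw [sum_const, Nat.card_Icc, nsmul_eq_mul, Nat.add_sub_cancel, mul_assoc]

end Pool.Agent.NH14.PC
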