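import Pool.Agent.NH14.PC.Nrm

set_option autoImplicit false

/-!
# The weights (PC-6)
-/

namespace Pool.Agent.NH14.PC

open scoped ENNReal
open Filter Topology

namespace WT

/-- the ratio `2 ^ (1 / s - 1 / r)` -/
noncomputable def q (r s : ℝ) : ℝ := (2 : ℝ) ^ (1 / s - 1 / r)

theorem q_pos (r s : ℝ) : 0 < q r s := Real.rpow_pos_of_pos two_pos _

theorem q_le {r s : ℝ} (hr : 0 < r) (h : r ≤ s) : q r s ≤ 1 := by
  refine Real.rpow_le_one_of_one_le_of_nonpos one_le_two ?_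
  have := one_div_le_one_div_of_le hr h
  linarith

theorem q_lt {r s : ℝ} (hr : 0 < r) (h : r < s) : q r s < 1 := by
  refine Real.rpow_lt_one_of_one_lt_of_neg one_lt_two ?_
  have := one_div_lt_one_div_of_lt hr h
  linarith

theorem one_le_q {r s : ℝ} (hs : 0 < s) (h : s ≤ r) : 1 ≤ q r s := by
  refine Real.one_le_rpow one_le_two ?_
  have := one_div_le_one_div_of_le hs h
  linarith

theorem one_lt_q {r s : ℝ} (hs : 0 < s) (h : s < r) : 1 < q r s := by
  refine Real.one_lt_rpow one_lt_two ?_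
  have := one_div_lt_one_div_of_lt hs h
  linarith

theorem mulq {r s x : ℝ} (hx : 0 ≤ x) (n : ℕ) :
    ENNReal.ofReal ((2 : ℝ) ^ (-((n : ℝ) / r)) * x) * (2 : ℝ≥0∞) ^ ((n : ℝ) / s) =
      ENNReal.ofReal (q r s ^ n * x) := by
  have h2 : (2 : ℝ≥0∞) = ENNReal.ofReal 2 := by simp
  rw [h2, ENNReal.ofReal_rpow_of_pos two_pos, ← ENNReal.ofReal_mul (by positivity)]
  congr 1
  unfold q
  rw [← Real.rpow_natCast, ← Real.rpow_mul two_pos.le, mul_right_comm, ← Real.rpow_add two_pos]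
  congr 2
  ring

end WT

open WT

theorem t_WT : S_WT := by
  intro r hr
  have hr0 : 0 < r := by linarith
  refine ⟨⟨fun n => ENNReal.ofReal ((2 : ℝ) ^ (-((n : ℝ) / r)) * (1 / ((n : ℝ) + 1) ^ 2)),
    fun n => ENNReal.ofReal_ne_top, fun s hs => ?_, fun s hs1 hs K hK => ?_⟩,
    ⟨fun n => ENNReal.ofReal ((2 : ℝ) ^ (-((n : ℝ) / r)) * ((n : ℝ) + 1)),
    fun n => ENNReal.ofReal_ne_top, fun s hs => ?_, fun s hs1 hs K hK => ?_⟩⟩
  · have h1 : ∀ n : ℕ, ENNReal.ofReal ((2 : ℝ) ^ (-((n : ℝ) / r)) * (1 / ((n : ℝ) + 1) ^ 2)) *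
        (2 : ℝ≥0∞) ^ ((n : ℝ) / s) = ENNReal.ofReal (q r s ^ n * (1 / ((n : ℝ) + 1) ^ 2)) :=
      fun n => mulq (by positivity) n
    simp only [h1]
    refine Summable.tsum_ofReal_ne_top ?_
    have h2 : Summable fun n : ℕ => 1 / ((n : ℝ) + 1) ^ 2 := by
      have h3 := (summable_nat_add_iff (f := fun n : ℕ => 1 / (n : ℝ) ^ 2) 1).2
        (Real.summable_one_div_nat_pow.2 one_lt_two)
      simpa using h3
    refine Summable.of_nonneg_of_le (fun n => ?_) (fun n => ?_) h2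
    · have := q_pos r s
      positivity
    · have h3 : q r s ^ n ≤ 1 := pow_le_one₀ (q_pos r s).le (q_le hr0 hs)
      exact mul_le_of_le_one_left (by positivity) h3
  · have hs0 : 0 < s := by linarith
    have hq := one_lt_q hs0 hs
    have h1 := tendsto_pow_const_div_const_pow_of_one_lt 2 hq
    have h2 : 0 < 1 / (q r s * (K.toReal + 1)) := by
      have := @ENNReal.toReal_nonneg K
      positivity
    obtain ⟨N, hN⟩ := Filter.eventually_atTop.1 (h1.eventually (gt_mem_nhds h2))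
    refine ⟨N, ?_⟩
    have h3 := hN (N + 1) (by omega)
    change K < ENNReal.ofReal ((2 : ℝ) ^ (-((N : ℝ) / r)) * (1 / ((N : ℝ) + 1) ^ 2)) *
        (2 : ℝ≥0∞) ^ ((N : ℝ) / s)
    rw [mulq (by positivity), ENNReal.lt_ofReal_iff_toReal_lt hK]
    have hK0 := @ENNReal.toReal_nonneg K
    have hq0 := q_pos r s
    rw [div_lt_div_iff₀ (by positivity) (by positivity), pow_succ (q r s)] at h3
    push_cast at h3
    have h4 : ((N : ℝ) + 1) ^ 2 * (K.toReal + 1) < q r s ^ N := by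
      have h5 : q r s * (((N : ℝ) + 1) ^ 2 * (K.toReal + 1)) < q r s * q r s ^ N := by
        calc q r s * (((N : ℝ) + 1) ^ 2 * (K.toReal + 1))
            = ((N : ℝ) + 1) ^ 2 * (q r s * (K.toReal + 1)) := by ring
          _ < 1 * (q r s ^ N * q r s) := h3
          _ = q r s * q r s ^ N := by ring
      exact lt_of_mul_lt_mul_left h5 hq0.le
    have h5 : K.toReal + 1 < q r s ^ N * (1 / ((N : ℝ) + 1) ^ 2) := by
      rw [mul_one_div, lt_div_iff₀ (by positivity)]
      linarith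
    linarith
  · have h1 : ∀ n : ℕ, ENNReal.ofReal ((2 : ℝ) ^ (-((n : ℝ) / r)) * ((n : ℝ) + 1)) *
        (2 : ℝ≥0∞) ^ ((n : ℝ) / s) = ENNReal.ofReal (q r s ^ n * ((n : ℝ) + 1)) :=
      fun n => mulq (by positivity) n
    simp only [h1]
    refine Summable.tsum_ofReal_ne_top ?_
    have hq : ‖q r s‖ < 1 := by
      rw [Real.norm_of_nonneg (q_pos r s).le]
      exact q_lt hr0 hs
    have h2 := summable_pow_mul_geometric_of_norm_lt_one 1 hq
    have h3 := summable_geometric_of_norm_lt_one hq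
    have h4 := h2.add h3
    refine h4.congr fun n => ?_
    rw [pow_one]
    ring
  · have hs0 : 0 < s := by linarith
    obtain ⟨N, hN⟩ := exists_nat_gt K.toReal
    refine ⟨N, ?_⟩
    change K < ENNReal.ofReal ((2 : ℝ) ^ (-((N : ℝ) / r)) * ((N : ℝ) + 1)) *
        (2 : ℝ≥0∞) ^ ((N : ℝ) / s)
    rw [mulq (by positivity), ENNReal.lt_ofReal_iff_toReal_lt hK]
    have h3 : 1 ≤ q r s ^ N := one_le_pow₀ (one_le_q hs0 hs)
    have h4 : ((N : ℝ) + 1) ≤ q r s ^ N * ((N : ℝ) + 1) := le_mul_of_one_le_left (by positivity) h3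
    linarith

end Pool.Agent.NH14.PC
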